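import Pool.Agent.H118.HP.GW
import Pool.Agent.H466.HP.Stm3

/-!
# `S_GWP`: most windows have small values of zeta on the critical line, with a power saving

The pointwise bound of `Pool.Agent.H118.HP.GW` together with the second moment on the line `1/2 + a`.
-/

set_option autoImplicit false

namespace Pool.Agent.H307.HP

open Complex MeasureTheory Set Filter Topology
open Pool.Agent.H118.HP

lemma gauss_int2 (b y : ℝ) (hb : 0 < b) :
    Integrable (fun u : ℝ => (1 + |u|) ^ 2 * Real.exp (-(u - y) ^ 2 / b)) := by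
  have h1 : Integrable (fun u : ℝ => Real.exp (-(1 / b) * u ^ 2)) :=
    integrable_exp_neg_mul_sq (by positivity)
  have h2 : Integrable (fun u : ℝ => u ^ (2 : ℝ) * Real.exp (-(1 / b) * u ^ 2)) :=
    integrable_rpow_mul_exp_neg_mul_sq (by positivity) (by norm_num)
  have h3 : Integrable (fun u : ℝ => (2 * (1 + |y|) ^ 2) * Real.exp (-(1 / b) * u ^ 2) +
      2 * (u ^ (2 : ℝ) * Real.exp (-(1 / b) * u ^ 2))) := (h1.const_mul _).add (h2.const_mul _)
  have h4 := h3.comp_sub_right y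
  refine h4.mono' (by fun_prop) (Eventually.of_forall fun u => ?_)
  rw [Real.norm_eq_abs, abs_of_nonneg (by positivity), Real.rpow_two]
  have e : -(1 / b) * (u - y) ^ 2 = -(u - y) ^ 2 / b := by ring
  rw [e, ← mul_assoc, ← add_mul]
  refine mul_le_mul_of_nonneg_right ?_ (Real.exp_pos _).le
  have h5 := abs_add_le y (u - y)
  rw [add_sub_cancel] at h5
  have h6 : (1 + |u|) ^ 2 ≤ (1 + |y| + |u - y|) ^ 2 := by
    apply pow_le_pow_left₀ (by positivity)
    linarith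
  have h7 := sq_abs (u - y)
  nlinarith [sq_nonneg (1 + |y| - |u - y|)]

lemma zeta_sq_int {σ : ℝ} (h1 : 1 / 4 ≤ σ) (h2 : σ ≤ 3 / 4) (t : ℝ) :
    Integrable (fun v : ℝ => ‖riemannZeta ((σ : ℂ) + ((t + v : ℝ) : ℂ) * I)‖ ^ 2 *
      Real.exp (-v ^ 2 / 4)) := by
  obtain ⟨C, hC, h⟩ := Pool.Agent.H448R2.GC.zeta_growth_mid
  have hg := gauss_int2 4 0 (by norm_num)
  simp only [sub_zero] at hg
  refine (hg.const_mul (C ^ 2 * (1 + |t|) ^ 2)).mono' ?_ (Eventually.of_forall fun v => ?_)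
  · have hc := (zc σ (by linarith)).comp (continuous_const.add continuous_id : Continuous fun v : ℝ => t + v)
    exact ((hc.pow 2).mul (by fun_prop)).aestronglyMeasurable
  · rw [Real.norm_eq_abs, abs_of_nonneg (by positivity), ← mul_assoc]
    refine mul_le_mul_of_nonneg_right ?_ (Real.exp_pos _).le
    have h3 := h ((σ : ℂ) + ((t + v : ℝ) : ℂ) * I) (by simp; linarith) (by simp; linarith)
    have h4 : ((σ : ℂ) + ((t + v : ℝ) : ℂ) * I).im = t + v := by simp
    rw [h4] at h3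
    have h5 := abs_add_le t v
    have h6 : 1 + |t + v| ≤ (1 + |t|) * (1 + |v|) := by
      nlinarith [mul_nonneg (abs_nonneg t) (abs_nonneg v)]
    have h7 : ‖riemannZeta ((σ : ℂ) + ((t + v : ℝ) : ℂ) * I)‖ ≤ C * ((1 + |t|) * (1 + |v|)) := by
      refine h3.trans ?_
      gcongr
    calc ‖riemannZeta ((σ : ℂ) + ((t + v : ℝ) : ℂ) * I)‖ ^ 2 ≤ (C * ((1 + |t|) * (1 + |v|))) ^ 2 :=
          pow_le_pow_left₀ (norm_nonneg _) h7 2
      _ = _ := by ring

/-- the local mean square -/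
noncomputable def H2 (σ t : ℝ) : ℝ :=
  ∫ v : ℝ, ‖riemannZeta ((σ : ℂ) + ((t + v : ℝ) : ℂ) * I)‖ ^ 2 * Real.exp (-v ^ 2 / 4)

lemma inner2 {σ : ℝ} (h1 : 1 / 2 < σ) (h2 : σ < 1) : ∃ C : ℝ, 0 < C ∧ ∀ T v : ℝ, 1 ≤ T →
    ∫⁻ t in Icc T (2 * T), ENNReal.ofReal (‖riemannZeta ((σ : ℂ) + ((t + v : ℝ) : ℂ) * I)‖ ^ 2) ≤
      ENNReal.ofReal (C * T * (1 + |v|)) := by
  obtain ⟨C, hC, h⟩ := Pool.Agent.Q211.NB.msq h1 h2
  have hc := (zc σ h2).pow 2
  have hsym : ∀ X : ℝ, 1 ≤ X → ∫ t in (-X)..X, ‖riemannZeta ((σ : ℂ) + t * I)‖ ^ 2 ≤ 2 * C * X := by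
    intro X hX
    have hii : ∀ a b : ℝ, IntervalIntegrable (fun t : ℝ => ‖riemannZeta ((σ : ℂ) + t * I)‖ ^ 2)
        volume a b := fun a b => hc.intervalIntegrable a b
    have e1 : ∫ t in (-X)..0, ‖riemannZeta ((σ : ℂ) + t * I)‖ ^ 2 =
        ∫ t in (0 : ℝ)..X, ‖riemannZeta ((σ : ℂ) + t * I)‖ ^ 2 := by
      have := intervalIntegral.integral_comp_neg (a := 0) (b := X)
        (fun t : ℝ => ‖riemannZeta ((σ : ℂ) + t * I)‖ ^ 2)
      rw [neg_zero] at this
      rw [← this]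
      refine intervalIntegral.integral_congr fun t _ => ?_
      rw [Pool.Agent.Q211.NB.zsymm σ t]
    rw [← intervalIntegral.integral_add_adjacent_intervals (hii (-X) 0) (hii 0 X), e1]
    linarith [h X hX]
  refine ⟨4 * C, by positivity, fun T v hT => ?_⟩
  have hcv : Continuous (fun t : ℝ => ‖riemannZeta ((σ : ℂ) + ((t + v : ℝ) : ℂ) * I)‖ ^ 2) :=
    hc.comp (continuous_id.add continuous_const)
  rw [← ofReal_integral_eq_lintegral_ofReal (hcv.integrableOn_Icc)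
    (Eventually.of_forall fun t => by positivity)]
  apply ENNReal.ofReal_le_ofReal
  rw [integral_Icc_eq_integral_Ioc, ← intervalIntegral.integral_of_le (by linarith)]
  have e1 := intervalIntegral.integral_comp_add_right (a := T) (b := 2 * T)
    (fun t : ℝ => ‖riemannZeta ((σ : ℂ) + t * I)‖ ^ 2) v
  rw [e1]
  have hv := abs_nonneg v
  have hv1 := neg_abs_le v
  have hv2 := le_abs_self v
  calc ∫ t in (T + v)..(2 * T + v), ‖riemannZeta ((σ : ℂ) + t * I)‖ ^ 2
      ≤ ∫ t in (-(2 * T + |v|))..(2 * T + |v|), ‖riemannZeta ((σ : ℂ) + t * I)‖ ^ 2 := by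
        refine intervalIntegral.integral_mono_interval (by linarith) (by linarith) (by linarith)
          (Eventually.of_forall fun t => by positivity) (hc.intervalIntegrable _ _)
    _ ≤ 2 * C * (2 * T + |v|) := hsym _ (by linarith)
    _ ≤ 4 * C * T * (1 + |v|) := by
        nlinarith [mul_nonneg hC.le hv,
          mul_nonneg (mul_nonneg hC.le hv) (by linarith : 0 ≤ T - 1)]

lemma meanH2 {σ : ℝ} (h1 : 1 / 2 < σ) (h2 : σ ≤ 3 / 4) : ∃ C : ℝ, 0 < C ∧ ∀ T : ℝ, 1 ≤ T →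
    ∫⁻ t in Icc T (2 * T), ENNReal.ofReal (H2 σ t) ≤ ENNReal.ofReal (C * T) := by
  obtain ⟨C, hC, h⟩ := inner2 h1 (by linarith)
  have hg := gauss_int 4 0 (by norm_num)
  simp only [sub_zero] at hg
  set c : ℝ := ∫ u : ℝ, (1 + |u|) * Real.exp (-u ^ 2 / 4) with hc
  have hc0 : 0 ≤ c := integral_nonneg fun u => by positivity
  refine ⟨C * c + 1, by positivity, fun T hT => ?_⟩
  have hzc := zc σ (by linarith)
  have hcont : Continuous (fun p : ℝ × ℝ =>
      ENNReal.ofReal (‖riemannZeta ((σ : ℂ) + ((p.1 + p.2 : ℝ) : ℂ) * I)‖ ^ 2 *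
        Real.exp (-p.2 ^ 2 / 4))) := by
    refine ENNReal.continuous_ofReal.comp ?_
    exact ((hzc.comp (continuous_fst.add continuous_snd)).pow 2).mul (by fun_prop)
  have e1 : ∀ t : ℝ, ENNReal.ofReal (H2 σ t) =
      ∫⁻ v : ℝ, ENNReal.ofReal (‖riemannZeta ((σ : ℂ) + ((t + v : ℝ) : ℂ) * I)‖ ^ 2 *
        Real.exp (-v ^ 2 / 4)) := by
    intro t
    exact ofReal_integral_eq_lintegral_ofReal (zeta_sq_int (by linarith) h2 t)
      (Eventually.of_forall fun v => by positivity)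
  simp_rw [e1]
  rw [lintegral_lintegral_swap hcont.aemeasurable]
  have e2 : ∀ v : ℝ, ∫⁻ t in Icc T (2 * T),
      ENNReal.ofReal (‖riemannZeta ((σ : ℂ) + ((t + v : ℝ) : ℂ) * I)‖ ^ 2 *
        Real.exp (-v ^ 2 / 4)) ≤
      ENNReal.ofReal (C * T * ((1 + |v|) * Real.exp (-v ^ 2 / 4))) := by
    intro v
    have e3 : ∀ t : ℝ, ENNReal.ofReal (‖riemannZeta ((σ : ℂ) + ((t + v : ℝ) : ℂ) * I)‖ ^ 2 *
        Real.exp (-v ^ 2 / 4)) =
        ENNReal.ofReal (‖riemannZeta ((σ : ℂ) + ((t + v : ℝ) : ℂ) * I)‖ ^ 2) *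
          ENNReal.ofReal (Real.exp (-v ^ 2 / 4)) :=
      fun t => ENNReal.ofReal_mul (by positivity)
    simp_rw [e3]
    rw [lintegral_mul_const' _ _ ENNReal.ofReal_ne_top, ← mul_assoc,
      ENNReal.ofReal_mul (by positivity)]
    gcongr
    exact h T v hT
  calc ∫⁻ v : ℝ, ∫⁻ t in Icc T (2 * T),
      ENNReal.ofReal (‖riemannZeta ((σ : ℂ) + ((t + v : ℝ) : ℂ) * I)‖ ^ 2 *
        Real.exp (-v ^ 2 / 4))
      ≤ ∫⁻ v : ℝ, ENNReal.ofReal (C * T * ((1 + |v|) * Real.exp (-v ^ 2 / 4))) :=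
        lintegral_mono e2
    _ = ENNReal.ofReal (∫ v : ℝ, C * T * ((1 + |v|) * Real.exp (-v ^ 2 / 4))) := by
        rw [ofReal_integral_eq_lintegral_ofReal (hg.const_mul _)
          (Eventually.of_forall fun v => by positivity)]
    _ ≤ ENNReal.ofReal ((C * c + 1) * T) := by
        apply ENNReal.ofReal_le_ofReal
        rw [integral_const_mul, ← hc]
        nlinarith

/-- a large local average forces a large local mean square -/
lemma H_le {σ : ℝ} (h1 : 1 / 4 ≤ σ) (h2 : σ ≤ 3 / 4) : ∃ K : ℝ, 0 < K ∧ ∀ t c : ℝ, 0 < c →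
    c ≤ H σ t → c ^ 2 / K ≤ H2 σ t := by
  have hg : Integrable (fun v : ℝ => Real.exp (-v ^ 2 / 4)) := by
    have h3 : Integrable (fun u : ℝ => Real.exp (-(1 / 4) * u ^ 2)) :=
      integrable_exp_neg_mul_sq (by norm_num)
    refine h3.congr (Eventually.of_forall fun v => ?_)
    simp only
    congr 1
    ring
  set c0 : ℝ := ∫ v : ℝ, Real.exp (-v ^ 2 / 4) with hc0
  have hc00 : 0 ≤ c0 := integral_nonneg fun u => by positivity
  refine ⟨c0 + 1, by positivity, fun t c hc hcH => ?_⟩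
  -- the arithmetic-geometric inequality with the parameter `h = c / (c0 + 1)`
  obtain ⟨h, hh⟩ : ∃ h : ℝ, h = c / (c0 + 1) := ⟨_, rfl⟩
  have hh0 : 0 < h := by rw [hh]; positivity
  have hle : H σ t ≤ (1 / (2 * h)) * H2 σ t + (h / 2) * c0 := by
    rw [H, H2, hc0, ← integral_const_mul, ← integral_const_mul, ← integral_add
      ((zeta_sq_int h1 h2 t).const_mul _) (hg.const_mul _)]
    refine integral_mono (H_int h1 h2 t) (((zeta_sq_int h1 h2 t).const_mul _).add
      (hg.const_mul _)) fun v => ?_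
    simp only
    rw [← mul_assoc, ← add_mul]
    refine mul_le_mul_of_nonneg_right ?_ (Real.exp_pos _).le
    set z : ℝ := ‖riemannZeta ((σ : ℂ) + ((t + v : ℝ) : ℂ) * I)‖
    have e : 1 / (2 * h) * z ^ 2 + h / 2 = (z ^ 2 + h ^ 2) / (2 * h) := by
      field_simp
    rw [e, le_div_iff₀ (by positivity)]
    nlinarith [sq_nonneg (z - h)]
  have h3 : h * (c0 + 1) = c := by
    rw [hh]
    field_simp
  have h4 : c / 2 ≤ 1 / (2 * h) * H2 σ t := by
    have h5 : h / 2 * c0 ≤ c / 2 := by nlinarith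
    linarith
  have h5 : c * h ≤ H2 σ t := by
    have h6 : c / 2 * (2 * h) ≤ 1 / (2 * h) * H2 σ t * (2 * h) :=
      mul_le_mul_of_nonneg_right h4 (by positivity)
    have h7 : 1 / (2 * h) * H2 σ t * (2 * h) = H2 σ t := by field_simp
    rw [h7] at h6
    linarith
  have h6 : c ^ 2 / (c0 + 1) = c * h := by
    rw [hh]
    ring
  rw [h6]
  exact h5

theorem gwp_main (R η : ℝ) (hR : 0 < R) (hη : 0 < η) : ∃ T0 : ℝ, 10 ≤ T0 ∧
    ∀ T : ℝ, T0 ≤ T → volume {t : ℝ | t ∈ Icc T (2 * T) ∧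
      ∃ y : ℝ, |y - t| ≤ R ∧ T ^ η < ‖riemannZeta (1 / 2 + I * y)‖} ≤
      ENNReal.ofReal (T ^ (1 - η)) := by
  set a : ℝ := min (η / 16) (1 / 4) with ha
  have ha0 : 0 < a := lt_min (by positivity) (by norm_num)
  have ha4 : a ≤ 1 / 4 := min_le_right _ _
  have haη : a ≤ η / 16 := min_le_left _ _
  have hs1 : 1 / 2 < 1 / 2 + a := by linarith
  have hs2 : 1 / 2 + a ≤ 3 / 4 := by linarith
  obtain ⟨C1, hC1, hleft⟩ := left_int
  obtain ⟨C2, hC2, hmean⟩ := meanH2 hs1 hs2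
  obtain ⟨K3, hK3, hHle⟩ := H_le (by linarith : 1 / 4 ≤ 1 / 2 + a) hs2
  -- the pointwise bound
  set K : ℝ := 4 / a * Real.exp 1 * Real.exp (R ^ 2 / 2) with hK
  have hK0 : 0 < K := by positivity
  set K2 : ℝ := 16 * Real.exp 1 * C1 * (4 + R) with hK2
  have hK20 : 0 < K2 := by positivity
  have hpt : ∀ T t y : ℝ, 10 ≤ T → t ∈ Icc T (2 * T) → |y - t| ≤ R →
      ‖riemannZeta (1 / 2 + I * y)‖ ≤ K * T ^ (4 * a) * H (1 / 2 + a) t + K2 := by
    intro T t y hT ht hy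
    have hT0 : 0 < T := by linarith
    have hl : 0 ≤ 4 * Real.log T := by
      have := Real.log_nonneg (by linarith : (1 : ℝ) ≤ T)
      linarith
    have h1 := pt0 ha0 ha4 (4 * Real.log T) y hl
    have e0 : (⟨1 / 2, y⟩ : ℂ) = 1 / 2 + I * y := by
      apply Complex.ext <;> simp
    rw [e0] at h1
    refine h1.trans (add_le_add ?_ ?_)
    · have h2 := window (by linarith : 1 / 4 ≤ 1 / 2 + a) hs2 hy
      have e1 : Real.exp (4 * Real.log T * a + 1) = Real.exp 1 * T ^ (4 * a) := by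
        rw [Real.rpow_def_of_pos hT0, ← Real.exp_add]
        congr 1
        ring
      rw [e1]
      calc 4 / a * (Real.exp 1 * T ^ (4 * a)) * _ ≤ 4 / a * (Real.exp 1 * T ^ (4 * a)) *
            (Real.exp (R ^ 2 / 2) * H (1 / 2 + a) t) := by gcongr
        _ = _ := by rw [hK]; ring
    · have h2 := hleft y
      have e1 : Real.exp (-(4 * Real.log T / 4) + 1) = Real.exp 1 * T⁻¹ := by
        rw [Real.exp_add, mul_comm]
        congr 1
        rw [mul_div_cancel_left₀ _ (by norm_num : (4 : ℝ) ≠ 0), Real.exp_neg, Real.exp_log hT0]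
      rw [e1]
      have hy1 : 1 + |y| ≤ (4 + R) * T := by
        have h3 := abs_add_le (y - t) t
        rw [sub_add_cancel] at h3
        have h4 : |t| ≤ 2 * T := by
          rw [abs_of_nonneg (by linarith [ht.1])]
          exact ht.2
        nlinarith
      calc 16 * (Real.exp 1 * T⁻¹) * _ ≤ 16 * (Real.exp 1 * T⁻¹) * (C1 * (1 + |y|)) := by gcongr
        _ ≤ 16 * (Real.exp 1 * T⁻¹) * (C1 * ((4 + R) * T)) := by gcongr
        _ = K2 := by
            rw [hK2]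
            field_simp
  -- large `T`
  have l1 : Tendsto (fun T : ℝ => T ^ η) atTop atTop := tendsto_rpow_atTop hη
  have l2 : Tendsto (fun T : ℝ => T ^ (η / 2)) atTop atTop := tendsto_rpow_atTop (by positivity)
  obtain ⟨T1, hT1⟩ := (l1.eventually_ge_atTop (2 * K2)).exists_forall_of_atTop
  obtain ⟨T2, hT2⟩ := (l2.eventually_ge_atTop (4 * K ^ 2 * K3 * C2)).exists_forall_of_atTop
  refine ⟨max 10 (max T1 T2), le_max_left _ _, fun T hT => ?_⟩
  have hT10 : 10 ≤ T := (le_max_left _ _).trans hT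
  have hTT1 : T1 ≤ T := (le_max_left _ _).trans ((le_max_right _ _).trans hT)
  have hTT2 : T2 ≤ T := (le_max_right _ _).trans ((le_max_right _ _).trans hT)
  have hT0 : 0 < T := by linarith
  have hT1' : 1 ≤ T := by linarith
  have k1 := hT1 T hTT1
  have k2 := hT2 T hTT2
  -- the threshold for the local average, and for the local mean square
  obtain ⟨c, hc⟩ : ∃ c : ℝ, c = T ^ (3 * η / 4) / (2 * K) := ⟨_, rfl⟩
  have hc0 : 0 < c := by rw [hc]; positivity
  obtain ⟨d, hd⟩ : ∃ d : ℝ, d = c ^ 2 / K3 := ⟨_, rfl⟩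
  have hd0 : 0 < d := by rw [hd]; positivity
  have hsub : {t : ℝ | t ∈ Icc T (2 * T) ∧
      ∃ y : ℝ, |y - t| ≤ R ∧ T ^ η < ‖riemannZeta (1 / 2 + I * y)‖} ⊆
      {t : ℝ | ENNReal.ofReal d ≤ ENNReal.ofReal (H2 (1 / 2 + a) t)} ∩ Icc T (2 * T) := by
    rintro t ⟨ht, y, hy, hbig⟩
    refine ⟨?_, ht⟩
    have h1 := hpt T t y hT10 ht hy
    have h2 : T ^ η / 2 ≤ K * T ^ (4 * a) * H (1 / 2 + a) t := by linarith
    have h3 : T ^ (4 * a) ≤ T ^ (η / 4) :=
      Real.rpow_le_rpow_of_exponent_le hT1' (by linarith)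
    have hH0 : 0 ≤ H (1 / 2 + a) t := integral_nonneg fun v => by positivity
    have h4 : T ^ η = T ^ (η / 4) * T ^ (3 * η / 4) := by
      rw [← Real.rpow_add hT0]
      congr 1
      ring
    have h5 : 0 < T ^ (η / 4) := by positivity
    apply ENNReal.ofReal_le_ofReal
    rw [hd]
    refine hHle t c hc0 ?_
    rw [hc, div_le_iff₀ (by positivity)]
    have h6 : T ^ (η / 4) * T ^ (3 * η / 4) / 2 ≤ K * T ^ (η / 4) * H (1 / 2 + a) t := by
      rw [← h4]
      refine h2.trans ?_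
      gcongr
    have h7 : T ^ (η / 4) * T ^ (3 * η / 4) ≤ T ^ (η / 4) * (H (1 / 2 + a) t * (2 * K)) := by
      nlinarith
    exact le_of_mul_le_mul_left h7 h5
  have hmeas : AEMeasurable (fun t : ℝ => ENNReal.ofReal (H2 (1 / 2 + a) t))
      (volume.restrict (Icc T (2 * T))) := by
    have hzc := zc (1 / 2 + a) (by linarith)
    have h1 : Continuous (fun p : ℝ × ℝ =>
        ‖riemannZeta (((1 / 2 + a : ℝ) : ℂ) + ((p.1 + p.2 : ℝ) : ℂ) * I)‖ ^ 2 *
          Real.exp (-p.2 ^ 2 / 4)) :=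
      ((hzc.comp (continuous_fst.add continuous_snd)).pow 2).mul (by fun_prop)
    have h2 : StronglyMeasurable (H2 (1 / 2 + a)) :=
      (h1.stronglyMeasurable).integral_prod_right'
    exact h2.measurable.ennreal_ofReal.aemeasurable
  have hdne : ENNReal.ofReal d ≠ 0 := by
    rw [Ne, ENNReal.ofReal_eq_zero, not_le]
    exact hd0
  calc volume {t : ℝ | t ∈ Icc T (2 * T) ∧
      ∃ y : ℝ, |y - t| ≤ R ∧ T ^ η < ‖riemannZeta (1 / 2 + I * y)‖}
      ≤ volume ({t : ℝ | ENNReal.ofReal d ≤ ENNReal.ofReal (H2 (1 / 2 + a) t)} ∩ Icc T (2 * T)) :=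
        measure_mono hsub
    _ ≤ volume.restrict (Icc T (2 * T))
        {t : ℝ | ENNReal.ofReal d ≤ ENNReal.ofReal (H2 (1 / 2 + a) t)} :=
        Measure.le_restrict_apply _ _
    _ ≤ (∫⁻ t in Icc T (2 * T), ENNReal.ofReal (H2 (1 / 2 + a) t)) / ENNReal.ofReal d :=
        meas_ge_le_lintegral_div hmeas hdne ENNReal.ofReal_ne_top
    _ ≤ ENNReal.ofReal (C2 * T) / ENNReal.ofReal d := by
        gcongr
        exact hmean T hT1'
    _ = ENNReal.ofReal (C2 * T / d) := by rw [ENNReal.ofReal_div_of_pos hd0]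
    _ ≤ ENNReal.ofReal (T ^ (1 - η)) := by
        apply ENNReal.ofReal_le_ofReal
        rw [div_le_iff₀ hd0, hd, hc, div_pow, ← Real.rpow_natCast (T ^ (3 * η / 4)) 2,
          ← Real.rpow_mul hT0.le]
        have e1 : T ^ (1 - η) * (T ^ (3 * η / 4 * ((2 : ℕ) : ℝ)) / (2 * K) ^ 2 / K3) =
            T * (T ^ (η / 2) / (4 * K ^ 2 * K3)) := by
          have e2 : T ^ (1 - η) * T ^ (3 * η / 4 * ((2 : ℕ) : ℝ)) = T * T ^ (η / 2) := by
            rw [← Real.rpow_add hT0]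
            have e3 : 1 - η + 3 * η / 4 * ((2 : ℕ) : ℝ) = 1 + η / 2 := by
              push_cast
              ring
            rw [e3, Real.rpow_add hT0, Real.rpow_one]
          calc T ^ (1 - η) * (T ^ (3 * η / 4 * ((2 : ℕ) : ℝ)) / (2 * K) ^ 2 / K3)
              = (T ^ (1 - η) * T ^ (3 * η / 4 * ((2 : ℕ) : ℝ))) / (4 * K ^ 2 * K3) := by
                field_simp
                ring
            _ = T * (T ^ (η / 2) / (4 * K ^ 2 * K3)) := by
                rw [e2]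
                ring
        rw [e1]
        have h5 : C2 ≤ T ^ (η / 2) / (4 * K ^ 2 * K3) := by
          rw [le_div_iff₀ (by positivity)]
          linarith
        nlinarith

theorem gwp : Pool.Agent.H466.HP.S_GWP := gwp_main

end Pool.Agent.H307.HP
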